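import Pool.Agent.K3h83.IN.Stm3

/-!
# The trace of an operator implementing an automorphism of a group of symplectic type
-/

set_option autoImplicit false

open scoped BigOperators Classical

noncomputable section

namespace Pool.Agent.K3h24.TF

open Pool.Agent.K3h83.IN Pool.Agent.Helper884
open Pool.Agent.H254R3.IN (schur irr_nontrivial scalar_inj)

variable {M : Type} [Group M] {V : Type} [AddCommGroup V] [Module ℂ V] [FiniteDimensional ℂ V]

/-- central elements act by scalars -/
lemma center_scalar (σ : Representation ℂ M V) (h : σ.IsIrreducible) (z : M)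
    (hz : z ∈ Subgroup.center M) : ∃ c : ℂ, σ z = c • LinearMap.id := by
  apply schur σ h
  intro g v
  rw [← Module.End.mul_apply, ← map_mul, ← Module.End.mul_apply, ← map_mul,
    Subgroup.mem_center_iff.mp hz g]

/-- the character vanishes outside the center -/
lemma char_zero (hM : ∀ a b : M, a * b * a⁻¹ * b⁻¹ ∈ Subgroup.center M)
    (σ : Representation ℂ M V) (h : σ.IsIrreducible)
    (hf : ∀ z ∈ Subgroup.center M, σ z = 1 → z = 1) (m : M) (hm : m ∉ Subgroup.center M) :
    σ.character m = 0 := by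
  obtain ⟨n, hn⟩ : ∃ n : M, n * m ≠ m * n := by
    by_contra hc
    push Not at hc
    exact hm (Subgroup.mem_center_iff.mpr hc)
  obtain ⟨c, hc⟩ := center_scalar σ h _ (hM n m)
  have hz : n * m * n⁻¹ * m⁻¹ ≠ 1 := by
    intro h1
    apply hn
    have h2 : n * m * n⁻¹ = m := mul_inv_eq_one.mp h1
    exact mul_inv_eq_iff_eq_mul.mp h2
  have hc1 : c ≠ 1 := by
    intro h1
    apply hz
    apply hf _ (hM n m)
    rw [hc, h1, one_smul]
    rfl
  have h1 : σ.character m = c * σ.character m := by
    have h2 : σ.character (n * m * n⁻¹) = σ.character m := σ.char_conj m n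
    have h3 : n * m * n⁻¹ = (n * m * n⁻¹ * m⁻¹) * m := by group
    rw [h3] at h2
    conv_lhs => rw [← h2]
    unfold Representation.character
    rw [map_mul, hc, smul_mul_assoc, map_smul, smul_eq_mul]
    rfl
  have h2 : (1 - c) * σ.character m = 0 := by
    rw [sub_mul, one_mul, ← h1, sub_self]
  rcases mul_eq_zero.mp h2 with h3 | h3
  · exact absurd (sub_eq_zero.mp h3).symm hc1
  · exact h3

/-- the average of an operator is a scalar -/
lemma average [Fintype M] (σ : Representation ℂ M V) (h : σ.IsIrreducible) (X : V →ₗ[ℂ] V) :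
    ∃ c : ℂ, (∑ m : M, σ m * X * σ m⁻¹) = c • LinearMap.id ∧
      c * (Module.finrank ℂ V : ℂ) = (Fintype.card M : ℂ) * LinearMap.trace ℂ V X := by
  obtain ⟨c, hc⟩ := schur σ h (∑ m : M, σ m * X * σ m⁻¹) (by
    intro g v
    have key : (∑ m : M, σ m * X * σ m⁻¹) * σ g = σ g * ∑ m : M, σ m * X * σ m⁻¹ := by
      rw [Finset.sum_mul, Finset.mul_sum]
      refine Fintype.sum_equiv (Equiv.mulLeft g⁻¹) _ _ (fun m => ?_)
      simp only [Equiv.coe_mulLeft]
      rw [mul_inv_rev, inv_inv, map_mul σ g⁻¹ m, map_mul σ m⁻¹ g]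
      simp only [← mul_assoc]
      rw [← map_mul, mul_inv_cancel, map_one, one_mul]
    exact congrArg (fun S : V →ₗ[ℂ] V => S v) key)
  refine ⟨c, hc, ?_⟩
  have h1 := congrArg (LinearMap.trace ℂ V) hc
  rw [map_sum, map_smul, LinearMap.trace_id, smul_eq_mul] at h1
  rw [← h1]
  have h2 : ∀ m : M, LinearMap.trace ℂ V (σ m * X * σ m⁻¹) = LinearMap.trace ℂ V X := by
    intro m
    rw [LinearMap.trace_mul_comm, ← mul_assoc, ← map_mul, inv_mul_cancel, map_one, one_mul]
  simp only [h2, Finset.sum_const, Finset.card_univ, nsmul_eq_mul]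

theorem t_T8 : T8 := by
  intro q _ M _ _ hS V _ _ _ σ hirr hf α hα hfix T hT
  letI := Fintype.ofFinite M
  haveI := irr_nontrivial σ hirr
  set n : ℂ := (Module.finrank ℂ V : ℂ) with hn
  have hn0 : n ≠ 0 := by
    rw [hn]
    exact_mod_cast (Module.finrank_pos (R := ℂ) (M := V)).ne'
  set Z : ℂ := ((Finset.univ.filter (fun m : M => m ∈ Subgroup.center M)).card : ℂ) with hZ
  -- the order of `M`
  have hcard : Z * n ^ 2 = (Fintype.card M : ℂ) := by
    have h1 : IC.B σ.character σ.character = 1 := by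
      have h2 : IC.IsIrrChar σ.character := ⟨V, inferInstance, inferInstance, inferInstance, σ, hirr, rfl⟩
      rw [IC.B_irr h2 h2, if_pos rfl]
    unfold IC.B at h1
    have h3 : (Nat.card M : ℂ) ≠ 0 := by exact_mod_cast Nat.card_pos.ne'
    have h4 : ∑ g : M, σ.character g * σ.character g⁻¹ = (Nat.card M : ℂ) := by
      field_simp at h1
      exact h1
    rw [Nat.card_eq_fintype_card] at h4
    rw [← h4]
    have h5 : ∀ g : M, σ.character g * σ.character g⁻¹ =
        if g ∈ Subgroup.center M then n ^ 2 else 0 := by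
      intro g
      split_ifs with hg
      · obtain ⟨c, hc⟩ := center_scalar σ hirr g hg
        have hprod : σ g * σ g⁻¹ = 1 := by rw [← map_mul, mul_inv_cancel, map_one]
        obtain ⟨c', hc'⟩ := center_scalar σ hirr g⁻¹ ((Subgroup.center M).inv_mem hg)
        have h6 : c * c' = 1 := by
          apply scalar_inj (V := V)
          rw [hc, hc'] at hprod
          rw [one_smul]
          have h7 : (c • (LinearMap.id : V →ₗ[ℂ] V)) * (c' • LinearMap.id) =
              (c * c') • LinearMap.id := by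
            ext v
            simp only [Module.End.mul_apply, LinearMap.smul_apply, LinearMap.id_apply, smul_smul]
          rw [h7] at hprod
          exact hprod
        unfold Representation.character
        rw [hc, hc', map_smul, map_smul, LinearMap.trace_id, smul_eq_mul, smul_eq_mul]
        calc c * n * (c' * n) = (c * c') * n ^ 2 := by ring
          _ = n ^ 2 := by rw [h6, one_mul]
      · rw [char_zero hS.com σ hirr hf g hg, zero_mul]
    simp only [h5]
    rw [← Finset.sum_filter, Finset.sum_const, nsmul_eq_mul]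
  -- the average of `T`
  obtain ⟨c, hc, hcn⟩ := average σ hirr (T : V →ₗ[ℂ] V)
  have hTm : ∀ m : M, σ m * (T : V →ₗ[ℂ] V) * σ m⁻¹ = σ (m * α m⁻¹) * (T : V →ₗ[ℂ] V) := by
    intro m
    ext v
    simp only [Module.End.mul_apply, LinearEquiv.coe_coe]
    rw [hT, map_mul]
    rfl
  have hsum : ∑ m : M, σ (m * α m⁻¹) = c • (T.symm : V →ₗ[ℂ] V) := by
    have h1 : (∑ m : M, σ (m * α m⁻¹)) * (T : V →ₗ[ℂ] V) = c • LinearMap.id := by
      rw [Finset.sum_mul, ← hc]
      exact Finset.sum_congr rfl (fun m _ => (hTm m).symm)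
    have h2 : (T : V →ₗ[ℂ] V) * (T.symm : V →ₗ[ℂ] V) = 1 := by
      ext v
      simp
    calc ∑ m : M, σ (m * α m⁻¹) = (∑ m : M, σ (m * α m⁻¹)) * ((T : V →ₗ[ℂ] V) * T.symm) := by
          rw [h2, mul_one]
      _ = (c • (LinearMap.id : V →ₗ[ℂ] V)) * (T.symm : V →ₗ[ℂ] V) := by rw [← mul_assoc, h1]
      _ = c • (T.symm : V →ₗ[ℂ] V) := by
          rw [smul_mul_assoc]
          rfl
  have htr := congrArg (LinearMap.trace ℂ V) hsum
  rw [map_sum, map_smul, smul_eq_mul] at htr
  have hval : ∀ m : M, LinearMap.trace ℂ V (σ (m * α m⁻¹)) =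
      if m ∈ Subgroup.center M then n else 0 := by
    intro m
    split_ifs with hm
    · have h1 : α m⁻¹ = m⁻¹ := hα _ ((Subgroup.center M).inv_mem hm)
      rw [h1, mul_inv_cancel, map_one, LinearMap.trace_one]
    · apply char_zero hS.com σ hirr hf
      intro h1
      apply hm
      apply hfix
      have h2 := (Subgroup.center M).inv_mem h1
      rw [mul_inv_rev, map_inv, inv_inv] at h2
      exact h2
  simp only [hval] at htr
  rw [← Finset.sum_filter, Finset.sum_const, nsmul_eq_mul] at htr
  -- the end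
  have hZ0 : Z ≠ 0 := by
    intro h0
    rw [h0, zero_mul] at hcard
    have : (Fintype.card M : ℂ) ≠ 0 := by exact_mod_cast Fintype.card_ne_zero
    exact this hcard.symm
  have e1 : Z * n = c * LinearMap.trace ℂ V (T.symm : V →ₗ[ℂ] V) := htr
  have e2 : c * n = Z * n ^ 2 * LinearMap.trace ℂ V (T : V →ₗ[ℂ] V) := by rw [hcn, hcard]
  have e3 : c = Z * n * LinearMap.trace ℂ V (T : V →ₗ[ℂ] V) := by
    apply mul_right_cancel₀ hn0
    rw [e2]
    ring
  rw [e3] at e1
  have e4 : Z * n * (LinearMap.trace ℂ V (T : V →ₗ[ℂ] V) *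
      LinearMap.trace ℂ V (T.symm : V →ₗ[ℂ] V)) = Z * n * 1 := by
    rw [mul_one, ← mul_assoc]
    exact e1.symm
  exact mul_left_cancel₀ (mul_ne_zero hZ0 hn0) e4

end Pool.Agent.K3h24.TF
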